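import Pool.Agent.N162.HN.Stm
import Pool.Agent.N27.CV.B1

/-!
# Project HN (helper162), part B1: coordinates in which the points are on n cylinders of low degree
(by helper565, after `Pool/Agent/N27/CV/B1.lean`)
-/

set_option autoImplicit false

open MvPolynomial

namespace Pool.Agent.N565.HN

open Pool.Agent.N162.CV (PRel MonicY)
open Pool.Agent.N27.CV (sub eval_sub' sub_spec top_ne eval_gen)
open Pool.Agent.N162.HN (act)

namespace B1

/-! ## Avoiding small sets in each coordinate -/

theorem avoid : ∀ (n D : ℕ) (Bad : Fin n → (Fin n → ℕ) → Prop),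
    (∀ l t, ∃ E : Finset ℕ, E.card ≤ D ∧ ∀ s, Bad l (Function.update t l s) → s ∈ E) →
    ∃ t, ∀ l, ¬ Bad l t := by
  intro n
  induction n with
  | zero => exact fun D Bad _ => ⟨fun l => l.elim0, fun l => l.elim0⟩
  | succ n ih =>
    intro D Bad h
    classical
    obtain ⟨t', ht'⟩ := ih ((D + 1) * D)
      (fun l t' => ∃ a ∈ Finset.range (D + 1), Bad l.succ (Fin.cons a t')) (by
        intro l t'
        choose E hE1 hE2 using fun a : ℕ => h l.succ (Fin.cons a t')
        refine ⟨(Finset.range (D + 1)).biUnion E, ?_, ?_⟩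
        · refine Finset.card_biUnion_le.trans ((Finset.sum_le_card_nsmul _ _ D
            fun a _ => hE1 a).trans ?_)
          rw [Finset.card_range, smul_eq_mul]
        · rintro s ⟨a, ha, hs⟩
          rw [Fin.cons_update] at hs
          exact Finset.mem_biUnion.2 ⟨a, ha, hE2 a s hs⟩)
    obtain ⟨E, hE1, hE2⟩ := h 0 (Fin.cons 0 t')
    obtain ⟨a, ha, haE⟩ : ∃ a ∈ Finset.range (D + 1), a ∉ E :=
      Finset.exists_mem_notMem_of_card_lt_card (by rw [Finset.card_range]; omega)
    refine ⟨Fin.cons a t', fun l => ?_⟩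
    refine Fin.cases ?_ (fun l => ?_) l
    · intro hb
      apply haE
      apply hE2
      rw [Fin.update_cons_zero]
      exact hb
    · exact fun hb => ht' l ⟨a, ha, hb⟩

/-- the natural numbers at which a polynomial vanishes -/
theorem roots_nat {K : Type} [Field K] [CharZero K] {P : Polynomial K} (hP : P ≠ 0) :
    ∃ E : Finset ℕ, E.card ≤ P.natDegree ∧ ∀ s : ℕ, P.eval (s : K) = 0 → s ∈ E := by
  classical
  have hinj : Set.InjOn (Nat.cast : ℕ → K) (Nat.cast ⁻¹' (P.roots.toFinset : Set K)) :=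
    Nat.cast_injective.injOn
  refine ⟨P.roots.toFinset.preimage Nat.cast hinj, ?_, fun s hs => ?_⟩
  · calc (P.roots.toFinset.preimage Nat.cast hinj).card ≤ P.roots.toFinset.card := by
          refine Finset.card_le_card_of_injOn Nat.cast (fun s hs => ?_)
            Nat.cast_injective.injOn
          exact Finset.mem_preimage.1 hs
      _ ≤ P.roots.card := Multiset.toFinset_card_le _
      _ ≤ P.natDegree := Polynomial.card_roots' P
  · rw [Finset.mem_preimage, Multiset.mem_toFinset, Polynomial.mem_roots hP]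
    exact hs

/-- a nonzero polynomial does not vanish at some natural point -/
theorem exists_nat {K : Type} [Field K] [CharZero K] {k : ℕ} {P : MvPolynomial (Fin k) K}
    (hP : P ≠ 0) : ∃ o : Fin k → ℕ, eval (fun s => (o s : K)) P ≠ 0 := by
  classical
  by_contra hcon
  push Not at hcon
  apply hP
  refine eq_zero_of_eval_zero_at_prod_finset P
    (fun _ => (Finset.range (P.totalDegree + 1)).image (fun n : ℕ => (n : K))) ?_ ?_
  · intro i
    rw [Finset.card_image_of_injective _ Nat.cast_injective, Finset.card_range]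
    exact lt_of_le_of_lt (degreeOf_le_totalDegree P i) (Nat.lt_succ_self _)
  · intro x hx
    have h1 : ∀ s, ∃ n : ℕ, (n : K) = x s := by
      intro s
      obtain ⟨n, _, hn'⟩ := Finset.mem_image.1 (hx s)
      exact ⟨n, hn'⟩
    choose o ho using h1
    have h2 : x = fun s => (o s : K) := by funext s; exact (ho s).symm
    rw [h2]
    exact hcon o

/-! ## The top form -/

theorem poly_eval {K : Type} [Field K] {σ : Type} (f : σ → Polynomial K) (G : MvPolynomial σ K)
    (s : K) : (aeval f G).eval s = eval (fun i => (f i).eval s) G := by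
  induction G using MvPolynomial.induction_on with
  | C a => simp
  | add p q hp hq => rw [map_add, Polynomial.eval_add, map_add, hp, hq]
  | mul_X p i hp => rw [map_mul, map_mul, Polynomial.eval_mul, hp, aeval_X, eval_X]

theorem eval_hom {K : Type} [Field K] {σ : Type} [Fintype σ] {H : MvPolynomial σ K} {a : ℕ}
    (hH : H.IsHomogeneous a) (c : K) (y : σ → K) :
    eval (fun i => c * y i) H = c ^ a * eval y H := by
  rw [eval_eq', eval_eq', Finset.mul_sum]
  refine Finset.sum_congr rfl fun d hd => ?_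
  have h1 : ∑ i, d i = a := by
    have h2 : d.degree = a := by
      by_contra h2
      exact (mem_support_iff.1 hd) (hH.coeff_eq_zero h2)
    rw [← h2, Finsupp.degree_eq_sum]
  simp only [mul_pow, Finset.prod_mul_distrib, Finset.prod_pow_eq_pow_sum, h1]
  ring

/-- a form in two variables is determined by its values at `(-s, 1)` -/
theorem form_ne {K : Type} [Field K] [Infinite K] {H : MvPolynomial (Fin 2) K} {a : ℕ}
    (hH : H.IsHomogeneous a) (h : ∀ s : K, eval ![-s, 1] H = 0) : H = 0 := by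
  have h1 : H * X 1 = 0 := by
    refine MvPolynomial.funext fun y => ?_
    rw [map_mul, eval_X, map_zero]
    by_cases hy : y 1 = 0
    · rw [hy, mul_zero]
    · have h2 : y = fun i => (y 1) * (![-(-(y 0 / y 1)), 1] : Fin 2 → K) i := by
        funext i
        fin_cases i
        · simp only [Fin.zero_eta, Matrix.cons_val_zero, neg_neg]
          field_simp
        · simp
      have h3 : eval y H = y 1 ^ a * eval (![-(-(y 0 / y 1)), 1] : Fin 2 → K) H := by
        conv_lhs => rw [h2]
        exact eval_hom hH _ _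
      rw [h3, h, mul_zero, zero_mul]
  rcases mul_eq_zero.1 h1 with h2 | h2
  · exact h2
  · exact absurd h2 (X_ne_zero 1)

/-- the values at `(-s, 1)` of the top form vanish for few `s` -/
theorem top_bad {K : Type} [Field K] [CharZero K] {G : MvPolynomial (Fin 2) K} (hG : G ≠ 0) :
    ∃ E : Finset ℕ, E.card ≤ G.totalDegree ∧ ∀ s : ℕ,
      eval ![-(s : K), 1] (homogeneousComponent G.totalDegree G) = 0 → s ∈ E := by
  set H := homogeneousComponent G.totalDegree G with hH
  set P : Polynomial K := aeval (![-Polynomial.X, 1] : Fin 2 → Polynomial K) H with hP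
  have hev : ∀ s : K, P.eval s = eval ![-s, 1] H := by
    intro s
    rw [hP, poly_eval]
    congr 2
    funext i
    fin_cases i <;> simp
  have hP0 : P ≠ 0 := by
    intro h0
    apply top_ne hG
    refine form_ne (homogeneousComponent_isHomogeneous _ _) fun s => ?_
    rw [← hH, ← hev, h0, Polynomial.eval_zero]
  obtain ⟨E, hE1, hE2⟩ := roots_nat hP0
  refine ⟨E, hE1.trans ?_, fun s hs => hE2 s (by rw [hev]; exact hs)⟩
  have h1 := MvPolynomial.aeval_natDegree_le (m := G.totalDegree) (n := 1) H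
    (homogeneousComponent_isHomogeneous _ _).totalDegree_le
    (![-Polynomial.X, 1] : Fin 2 → Polynomial K) (by
      intro i
      fin_cases i <;> simp)
  rwa [mul_one] at h1

/-! ## The relation in the plane -/

/-- a relation in space gives a relation for the images under two linear forms -/
theorem rel_lin {k : ℕ} {Ω : Type} [Field Ω] {ι : Type} {S : Finset ι} {q : ι → Fin (k + 1) → Ω}
    {lam : ι → Ω} {m : ℕ} (hq : ∀ i ∈ S, q i 0 = 1)
    (h : ∀ P : MvPolynomial (Fin (k + 1)) Ω, P.IsHomogeneous m →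
      ∑ i ∈ S, lam i * eval (q i) P = 0)
    (a : Fin 2 → Fin (k + 1) → Ω) : PRel m S (fun i s => ∑ j, a s j * q i j) lam := by
  classical
  intro P hP
  set l : Fin 2 → MvPolynomial (Fin (k + 1)) Ω := fun s => ∑ j, C (a s j) * X j with hl
  have hlh : ∀ s, (l s).IsHomogeneous 1 := by
    intro s
    exact IsHomogeneous.sum _ _ _ fun j _ => isHomogeneous_C_mul_X _ _
  set Q : MvPolynomial (Fin (k + 1)) Ω :=
    ∑ d ∈ P.support, C (coeff d P) * ((X 0) ^ (m - d.degree) * ∏ s, (l s) ^ (d s)) with hQ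
  have hQh : Q.IsHomogeneous m := by
    rw [hQ]
    refine IsHomogeneous.sum _ _ _ fun d hd => ?_
    have h1 : d.degree ≤ m := by
      have := le_totalDegree hd
      rw [Finsupp.degree_apply]
      exact this.trans hP
    have h2 : (∏ s, (l s) ^ (d s)).IsHomogeneous (∑ s, d s) :=
      IsHomogeneous.prod _ _ _ fun s _ => by
        have := (hlh s).pow (d s)
        rwa [one_mul] at this
    have h3 : ∑ s, d s = d.degree := by rw [Finsupp.degree_eq_sum]
    rw [h3] at h2
    have h4 := ((isHomogeneous_X_pow (R := Ω) (0 : Fin (k + 1)) (m - d.degree)).mul h2)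
    rw [Nat.sub_add_cancel h1] at h4
    exact h4.C_mul _
  have hev : ∀ i ∈ S, eval (q i) Q = eval (fun s => ∑ j, a s j * q i j) P := by
    intro i hi
    rw [hQ, map_sum, eval_eq']
    refine Finset.sum_congr rfl fun d _ => ?_
    rw [map_mul, map_mul, map_pow, eval_X, hq i hi, one_pow, one_mul, eval_C, map_prod]
    congr 1
    refine Finset.prod_congr rfl fun s _ => ?_
    rw [map_pow]
    congr 1
    simp [hl]
  rw [← h Q hQh]
  refine Finset.sum_congr rfl fun i hi => ?_
  rw [hev i hi]

/-! ## Matrices -/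

theorem act_mul {n : ℕ} {R : Type} [Field R] [CharZero R]
    (A B : Matrix (Fin (n + 2)) (Fin (n + 2)) ℚ) (v : Fin (n + 2) → R) :
    act (A * B) v = act A (act B v) := by
  funext i
  unfold act
  simp only [Matrix.mul_apply, Rat.cast_sum, Rat.cast_mul, Finset.sum_mul, Finset.mul_sum]
  rw [Finset.sum_comm]
  refine Finset.sum_congr rfl fun j _ => Finset.sum_congr rfl fun k _ => by ring

theorem act_one {n : ℕ} {R : Type} [Field R] [CharZero R] (v : Fin (n + 2) → R) :
    act (1 : Matrix (Fin (n + 2)) (Fin (n + 2)) ℚ) v = v := by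
  funext i
  unfold act
  simp only [Matrix.one_apply]
  rw [Finset.sum_eq_single i]
  · simp
  · intro j _ hj
    simp [hj.symm]
  · simp

/-- the row which is added -/
def tau {n : ℕ} (t : Fin n → ℕ) : Fin (n + 2) → ℚ := Fin.cons 0 (Fin.cons 0 (fun l => (t l : ℚ)))

theorem tau_zero {n : ℕ} (t : Fin n → ℕ) : tau t 0 = 0 := rfl
theorem tau_one {n : ℕ} (t : Fin n → ℕ) : tau t 1 = 0 := rfl
theorem tau_ss {n : ℕ} (t : Fin n → ℕ) (l : Fin n) : tau t l.succ.succ = (t l : ℚ) := by
  simp [tau]

/-- the elementary matrix -/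
def Nm {n : ℕ} (t : Fin n → ℕ) : Matrix (Fin (n + 2)) (Fin (n + 2)) ℚ :=
  Matrix.of fun i j => if i = 1 then tau t j else 0

theorem Nm_apply {n : ℕ} (t : Fin n → ℕ) (i j : Fin (n + 2)) :
    Nm t i j = if i = 1 then tau t j else 0 := rfl

theorem Nm_sq {n : ℕ} (t : Fin n → ℕ) : Nm t * Nm t = 0 := by
  ext i j
  rw [Matrix.mul_apply, Finset.sum_eq_single 1]
  · rw [Nm_apply, Nm_apply, tau_one]
    simp
  · intro k _ hk
    rw [Nm_apply t k, if_neg hk, mul_zero]
  · simp

theorem act_Nm {n : ℕ} {R : Type} [Field R] [CharZero R] (t : Fin n → ℕ) (v : Fin (n + 2) → R)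
    (j : Fin (n + 2)) :
    act (1 + Nm t) v j = v j + if j = 1 then ∑ l : Fin n, (t l : R) * v l.succ.succ else 0 := by
  have h1 : act (1 + Nm t) v j = act (1 : Matrix (Fin (n + 2)) (Fin (n + 2)) ℚ) v j +
      act (Nm t) v j := by
    unfold act
    rw [← Finset.sum_add_distrib]
    refine Finset.sum_congr rfl fun k _ => ?_
    rw [Matrix.add_apply, Rat.cast_add, add_mul]
  rw [h1, act_one]
  congr 1
  unfold act
  simp only [Nm_apply]
  split_ifs with hj
  · rw [Fin.sum_univ_succ, Fin.sum_univ_succ, tau_zero]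
    have h2 : tau t (Fin.succ 0) = 0 := rfl
    rw [h2, Rat.cast_zero, zero_mul, zero_mul, zero_add, zero_add]
    refine Finset.sum_congr rfl fun l _ => ?_
    rw [tau_ss, Rat.cast_natCast]
  · simp

/-- the vector of the last direction -/
def pc {n : ℕ} (p : Fin (n + 1) → ℕ) : Fin (n + 2) → ℚ := Fin.cons 0 (fun s => (p s : ℚ))

/-- the matrix with the last column `pc p` -/
def Bm {n : ℕ} (p : Fin (n + 1) → ℕ) : Matrix (Fin (n + 2)) (Fin (n + 2)) ℚ :=
  (1 : Matrix (Fin (n + 2)) (Fin (n + 2)) ℚ).updateCol (Fin.last (n + 1)) (pc p)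

theorem Bm_apply {n : ℕ} (p : Fin (n + 1) → ℕ) (i j : Fin (n + 2)) :
    Bm p i j = if j = Fin.last (n + 1) then pc p i else if i = j then 1 else 0 := by
  rw [Bm, Matrix.updateCol_apply, Matrix.one_apply]

theorem Bm_det {n : ℕ} (p : Fin (n + 1) → ℕ) : (Bm p).det = p (Fin.last n) := by
  rw [Bm, ← Matrix.cramer_apply, Matrix.cramer_one]
  have h : (Fin.last (n + 1)) = (Fin.last n).succ := rfl
  rw [Module.End.one_apply, h, pc, Fin.cons_succ]

end B1

open B1 in
/-- **HN/B1** -/
theorem b1_ (h : Pool.Agent.N162.CW.StA2) : Pool.Agent.N162.HN.StB1 := by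
  intro n Ω _ _ _ ι S q lam m N F hn hS hq0 hinj hlam hrel hm hcard ⟨c, hc0, hcF⟩
  classical
  have : CharZero Ω := charZero_of_injective_algebraMap (algebraMap ℂ Ω).injective
  -- the last direction
  obtain ⟨p, hp1, hp2⟩ : ∃ p : Fin (n + 1) → ℕ, p (Fin.last n) ≠ 0 ∧
      eval (fun j => ((pc p j : ℚ) : ℂ)) F ≠ 0 := by
    set Fp : MvPolynomial (Fin (n + 1)) ℂ :=
      aeval (Fin.cons 0 X : Fin (n + 2) → MvPolynomial (Fin (n + 1)) ℂ) F with hFp
    have hev : ∀ u : Fin (n + 1) → ℂ, eval u Fp = eval (Fin.cons 0 u : Fin (n + 2) → ℂ) F := by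
      intro u
      rw [hFp, eval_gen]
      congr 2
      funext s
      refine Fin.cases ?_ (fun s => ?_) s
      · simp
      · simp
    have hFp0 : Fp ≠ 0 := by
      intro h0
      have h1 := hev (fun s => c s.succ)
      have h2 : (Fin.cons 0 (fun s => c s.succ) : Fin (n + 2) → ℂ) = c := by
        funext s
        refine Fin.cases ?_ (fun s => ?_) s
        · rw [Fin.cons_zero, hc0]
        · rw [Fin.cons_succ]
      rw [h0, map_zero, h2] at h1
      exact hcF h1.symm
    obtain ⟨p, hp⟩ := B1.exists_nat (mul_ne_zero hFp0 (X_ne_zero (Fin.last n)))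
    rw [map_mul, eval_X, hev] at hp
    refine ⟨p, ?_, ?_⟩
    · exact_mod_cast right_ne_zero_of_mul hp
    · have h2 : (fun j => ((pc p j : ℚ) : ℂ)) =
          (Fin.cons 0 (fun s => (p s : ℂ)) : Fin (n + 2) → ℂ) := by
        funext s
        refine Fin.cases ?_ (fun s => ?_) s
        · simp [pc]
        · simp [pc]
      rw [h2]
      exact left_ne_zero_of_mul hp
  have hdet : IsUnit (Bm p).det := by
    rw [Bm_det, isUnit_iff_ne_zero]
    exact_mod_cast hp1
  have hB1 : Bm p * (Bm p)⁻¹ = 1 := Matrix.mul_nonsing_inv _ hdet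
  have hB2 : (Bm p)⁻¹ * Bm p = 1 := Matrix.nonsing_inv_mul _ hdet
  have hlast : (0 : Fin (n + 2)) ≠ Fin.last (n + 1) := by
    intro h0
    have := congrArg Fin.val h0
    simp at this
  have hrow0 : ∀ j, (Bm p)⁻¹ 0 j = if j = 0 then 1 else 0 := by
    intro j
    have h1 := congrFun (congrFun hB1 0) j
    rw [Matrix.mul_apply, Finset.sum_eq_single 0, Bm_apply, if_neg hlast, if_pos rfl, one_mul,
      Matrix.one_apply] at h1
    · rw [h1]
      by_cases hj : j = 0
      · rw [if_pos hj, if_pos hj.symm]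
      · rw [if_neg hj, if_neg (fun h => hj h.symm)]
    · intro k _ hk
      rw [Bm_apply]
      split_ifs with h2 h3
      · have : pc p 0 = 0 := rfl
        rw [this, zero_mul]
      · exact absurd h3.symm hk
      · rw [zero_mul]
    · simp
  -- the new coordinates
  set y : ι → Fin (n + 2) → Ω := fun i => act (Bm p)⁻¹ (q i) with hy
  have hy0 : ∀ i ∈ S, y i 0 = 1 := by
    intro i hi
    rw [hy]
    unfold act
    simp only [hrow0]
    rw [Finset.sum_eq_single 0]
    · simp [hq0 i hi]
    · intro j _ hj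
      simp [hj]
    · simp
  have hyinj : ∀ i ∈ S, ∀ j ∈ S, y i = y j → i = j := by
    intro i hi j hj hij
    apply hinj hi hj
    have h1 : ∀ k, act (Bm p) (y k) = q k := by
      intro k
      rw [hy]
      simp only
      rw [← act_mul, hB1, act_one]
    rw [← h1 i, ← h1 j, hij]
  set z : Fin n → ι → Ω := fun l i => y i l.succ.succ with hz
  set Xc : (Fin n → ℕ) → ι → Ω := fun t i => y i 1 + ∑ l, (t l : Ω) * z l i with hXc
  have hact1 : ∀ t i, act ((1 + Nm t) * (Bm p)⁻¹) (q i) 1 = Xc t i := by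
    intro t i
    rw [act_mul, act_Nm, if_pos rfl]
  have hact2 : ∀ t i (l : Fin n), act ((1 + Nm t) * (Bm p)⁻¹) (q i) l.succ.succ = z l i := by
    intro t i l
    rw [act_mul, act_Nm, if_neg, add_zero]
    intro h0
    have := congrArg Fin.val h0
    simp at this
  have hXu : ∀ (t : Fin n → ℕ) (l : Fin n) (s : ℕ) (i : ι),
      Xc (Function.update t l s) i = Xc (Function.update t l 0) i + s * z l i := by
    intro t l s i
    rw [hXc]
    simp only
    rw [add_assoc]
    congr 1
    rw [← Finset.add_sum_erase _ _ (Finset.mem_univ l),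
      ← Finset.add_sum_erase (a := l) Finset.univ (fun l' =>
        ((Function.update t l 0 l' : ℕ) : Ω) * z l' i) (Finset.mem_univ l)]
    rw [Function.update_self, Function.update_self, Nat.cast_zero, zero_mul, zero_add, add_comm]
    congr 1
    refine Finset.sum_congr rfl fun l' hl' => ?_
    have hne : l' ≠ l := Finset.ne_of_mem_erase hl'
    rw [Function.update_of_ne hne, Function.update_of_ne hne]
  -- the curves
  have hG : ∀ (l : Fin n) (t : Fin n → ℕ), ∃ G : MvPolynomial (Fin 2) Ω,
      Set.InjOn (fun i => (![Xc t i, z l i] : Fin 2 → Ω)) S →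
      G ≠ 0 ∧ G.totalDegree ≤ N ∧ 1 ≤ G.totalDegree ∧ ∀ i ∈ S, eval ![Xc t i, z l i] G = 0 := by
    intro l t
    by_cases ho : Set.InjOn (fun i => (![Xc t i, z l i] : Fin 2 → Ω)) S
    · have hPR : PRel m S (fun i => (![Xc t i, z l i] : Fin 2 → Ω)) lam := by
        have h1 := rel_lin hq0 hrel (![fun j => (((1 + Nm t) * (Bm p)⁻¹ : Matrix _ _ ℚ) 1 j : Ω),
          fun j => ((Bm p)⁻¹ l.succ.succ j : Ω)])
        have h2 : (fun i (s : Fin 2) => ∑ j, (![fun j =>
            (((1 + Nm t) * (Bm p)⁻¹ : Matrix _ _ ℚ) 1 j : Ω),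
            fun j => ((Bm p)⁻¹ l.succ.succ j : Ω)] : Fin 2 → Fin (n + 2) → Ω) s j * q i j) =
            fun i => (![Xc t i, z l i] : Fin 2 → Ω) := by
          funext i s
          fin_cases s
          · exact hact1 t i
          · rfl
        rwa [h2] at h1
      obtain ⟨G, hG0, hGd, hGv⟩ := h Ω ι S (fun i => ![Xc t i, z l i]) lam m N hm hcard ho hlam hPR
      refine ⟨G, fun _ => ⟨hG0, hGd, ?_, hGv⟩⟩
      by_contra hcon
      have h1 : G.totalDegree = 0 := by omega
      rw [totalDegree_eq_zero_iff_eq_C] at h1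
      obtain ⟨i, hi⟩ := hS
      have h2 := hGv i hi
      rw [h1, eval_C] at h2
      apply hG0
      rw [h1, h2, C_0]
    · exact ⟨0, fun h => absurd h ho⟩
  choose G hG using hG
  -- the form
  set Φ : Polynomial ℂ := aeval (fun j => Polynomial.C ((pc p j : ℚ) : ℂ) -
    if j = 1 then Polynomial.X else 0 : Fin (n + 2) → Polynomial ℂ) F with hΦ
  have hΦe : ∀ s : ℂ, Φ.eval s = eval (fun j => ((pc p j : ℚ) : ℂ) - if j = 1 then s else 0) F := by
    intro s
    rw [hΦ, poly_eval]
    congr 2
    funext j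
    split_ifs <;> simp
  have hΦ0 : Φ ≠ 0 := by
    intro h0
    apply hp2
    have h1 := hΦe 0
    rw [h0, Polynomial.eval_zero] at h1
    simpa using h1.symm
  obtain ⟨E₃, hE₃, hE₃'⟩ := roots_nat hΦ0
  -- the choice
  obtain ⟨t, ht⟩ := avoid n (N + (S ×ˢ S).card + Φ.natDegree) (fun l t =>
    (Set.InjOn (fun i => (![Xc (Function.update t l 0) i, z l i] : Fin 2 → Ω)) S ∧
      eval ![-(t l : Ω), 1] (homogeneousComponent (G l (Function.update t l 0)).totalDegree
        (G l (Function.update t l 0))) = 0) ∨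
    (∃ i ∈ S, ∃ j ∈ S, z l i ≠ z l j ∧ Xc t i = Xc t j) ∨ Φ.eval (t l : ℂ) = 0) (by
    intro l t
    obtain ⟨E₁, hE₁, hE₁'⟩ : ∃ E : Finset ℕ, E.card ≤ N ∧ ∀ s : ℕ,
        (Set.InjOn (fun i => (![Xc (Function.update t l 0) i, z l i] : Fin 2 → Ω)) S ∧
        eval ![-(s : Ω), 1] (homogeneousComponent (G l (Function.update t l 0)).totalDegree
        (G l (Function.update t l 0))) = 0) → s ∈ E := by
      by_cases hI : Set.InjOn (fun i => (![Xc (Function.update t l 0) i, z l i] : Fin 2 → Ω)) S
      · obtain ⟨h1, h2, _, _⟩ := hG l _ hI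
        obtain ⟨E, h3, h4⟩ := top_bad h1
        exact ⟨E, h3.trans h2, fun s hs => h4 s hs.2⟩
      · exact ⟨∅, by simp, fun s hs => absurd hs.1 hI⟩
    obtain ⟨E₂, hE₂, hE₂'⟩ : ∃ E : Finset ℕ, E.card ≤ (S ×ˢ S).card ∧ ∀ s : ℕ,
        (∃ i ∈ S, ∃ j ∈ S, z l i ≠ z l j ∧ Xc (Function.update t l s) i =
          Xc (Function.update t l s) j) → s ∈ E := by
      have h1 : ∀ ij : ι × ι, ∃ s₀ : ℕ, ∀ s : ℕ, z l ij.1 ≠ z l ij.2 →
          Xc (Function.update t l s) ij.1 = Xc (Function.update t l s) ij.2 → s = s₀ := by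
        intro ij
        by_cases hex : ∃ s : ℕ, z l ij.1 ≠ z l ij.2 ∧
          Xc (Function.update t l s) ij.1 = Xc (Function.update t l s) ij.2
        · obtain ⟨s₀, h2, h3⟩ := hex
          refine ⟨s₀, fun s _ h4 => ?_⟩
          rw [hXu, hXu t l s₀ ij.2] at h3
          rw [hXu, hXu t l s ij.2] at h4
          have h5 : ((s : Ω) - s₀) * (z l ij.1 - z l ij.2) = 0 := by linear_combination h4 - h3
          rcases mul_eq_zero.1 h5 with h6 | h6
          · exact Nat.cast_injective (R := Ω) (sub_eq_zero.1 h6)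
          · exact absurd (sub_eq_zero.1 h6) h2
        · push Not at hex
          exact ⟨0, fun s h2 h3 => absurd h3 (hex s h2)⟩
      choose f hf using h1
      refine ⟨(S ×ˢ S).image f, Finset.card_image_le, ?_⟩
      rintro s ⟨i, hi, j, hj, h2, h3⟩
      exact Finset.mem_image.2 ⟨(i, j), Finset.mem_product.2 ⟨hi, hj⟩, (hf (i, j) s h2 h3).symm⟩
    refine ⟨E₁ ∪ E₂ ∪ E₃, ?_, fun s hs => ?_⟩
    · have h1 := Finset.card_union_le (E₁ ∪ E₂) E₃
      have h2 := Finset.card_union_le E₁ E₂
      omega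
    · rw [Function.update_self, Function.update_idem] at hs
      rw [Finset.mem_union, Finset.mem_union]
      rcases hs with hs | hs | hs
      · exact Or.inl (Or.inl (hE₁' s hs))
      · exact Or.inl (Or.inr (hE₂' s hs))
      · exact Or.inr (hE₃' s hs))
  -- injectivity
  have hXinj : ∀ i ∈ S, ∀ j ∈ S, Xc t i = Xc t j → i = j := by
    intro i hi j hj hij
    have hzz : ∀ l, z l i = z l j := by
      intro l
      by_contra hne
      exact ht l (Or.inr (Or.inl ⟨i, hi, j, hj, hne, hij⟩))
    apply hyinj i hi j hj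
    funext k
    refine Fin.cases ?_ (fun k => ?_) k
    · rw [hy0 i hi, hy0 j hj]
    · refine Fin.cases ?_ (fun k => ?_) k
      · have h1 : Xc t i = y i 1 + ∑ l, (t l : Ω) * z l i := rfl
        have h2 : Xc t j = y j 1 + ∑ l, (t l : Ω) * z l j := rfl
        rw [h1, h2] at hij
        simp only [hzz] at hij
        exact add_right_cancel hij
      · exact hzz k
  have hXt : ∀ l i, Xc t i = Xc (Function.update t l 0) i + (t l : Ω) * z l i := by
    intro l i
    have := hXu t l (t l) i
    rwa [Function.update_eq_self] at this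
  have hI : ∀ l, Set.InjOn (fun i => (![Xc (Function.update t l 0) i, z l i] : Fin 2 → Ω)) S := by
    intro l i hi j hj hij
    have h1 : Xc (Function.update t l 0) i = Xc (Function.update t l 0) j := congrFun hij 0
    have h2 : z l i = z l j := congrFun hij 1
    apply hXinj i hi j hj
    rw [hXt l i, hXt l j, h1, h2]
  have htop : ∀ l, eval ![-(t l : Ω), 1] (homogeneousComponent
      (G l (Function.update t l 0)).totalDegree (G l (Function.update t l 0))) ≠ 0 :=
    fun l h0 => ht l (Or.inl ⟨hI l, h0⟩)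
  have hNN : (1 + Nm t) * (1 - Nm t) = 1 := by
    rw [mul_sub, add_mul, add_mul, Nm_sq]
    simp
  have hNN' : (1 - Nm t) * (1 + Nm t) = 1 := by
    rw [mul_add, sub_mul, sub_mul, Nm_sq]
    simp
  refine ⟨(1 + Nm t) * (Bm p)⁻¹, Bm p * (1 - Nm t),
    fun l => sub ![1, 0] ![-(t l : Ω), 1] (G l (Function.update t l 0)), ?_, ?_, ?_, ?_, ?_⟩
  · rw [mul_assoc, ← mul_assoc _ (Bm p), hB2, one_mul, hNN]
  · rw [mul_assoc, ← mul_assoc _ (1 + Nm t), hNN', one_mul, hB1]
  · intro j
    have h1 : Nm t 0 = 0 := by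
      funext k
      rw [Nm_apply, if_neg]
      · rfl
      · intro h0
        have := congrArg Fin.val h0
        simp at this
    rw [Matrix.add_mul, Matrix.add_apply, one_mul, hrow0, Matrix.mul_apply]
    simp only [h1, Pi.zero_apply, zero_mul, Finset.sum_const_zero, add_zero]
  · intro l
    obtain ⟨h1, h2, h3, h4⟩ := hG l _ (hI l)
    obtain ⟨h5, h6⟩ := sub_spec (![1, 0] : Fin 2 → Ω) ![-(t l : Ω), 1] (htop l)
    refine ⟨h5, by rw [h6]; exact h3, by rw [h6]; exact h2, fun i hi => ?_⟩
    rw [hact1, hact2, eval_sub']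
    refine Eq.trans ?_ (h4 i hi)
    congr 2
    funext s
    fin_cases s
    · simp only [Fin.zero_eta, Matrix.cons_val_zero]
      rw [hXt l i]
      ring
    · simp only [Fin.mk_one, Matrix.cons_val_one, Matrix.cons_val_fin_one]
      ring
  · obtain ⟨l₀, hl₀⟩ : ∃ l₀ : Fin n, l₀.succ.succ = Fin.last (n + 1) :=
      ⟨⟨n - 1, by omega⟩, Fin.ext (by simp; omega)⟩
    have h1 : Φ.eval (t l₀ : ℂ) ≠ 0 := fun h0 => ht l₀ (Or.inr (Or.inr h0))
    rw [hΦe] at h1
    have h1last : (1 : Fin (n + 2)) ≠ Fin.last (n + 1) := by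
      intro h0
      have := congrArg Fin.val h0
      simp at this
      omega
    have h2 : (fun j => (((Bm p * (1 - Nm t)) j (Fin.last (n + 1)) : ℚ) : ℂ)) =
        fun j => ((pc p j : ℚ) : ℂ) - if j = 1 then (t l₀ : ℂ) else 0 := by
      funext j
      rw [Matrix.mul_sub, mul_one, Matrix.sub_apply, Bm_apply, if_pos rfl, Matrix.mul_apply,
        Finset.sum_eq_single 1, Nm_apply, if_pos rfl, Bm_apply, if_neg h1last, ← hl₀, tau_ss]
      · split_ifs <;> simp
      · intro k _ hk
        rw [Nm_apply, if_neg hk, mul_zero]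
      · simp
    rw [h2]
    exact h1

end Pool.Agent.N565.HN
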